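import Mathlib

namespace Pool.Agent.Results.MP_6d1f6b_co.Gap

open Finset

/-- Domination number of the unitary Cayley graph of `ZMod n`. -/
noncomputable def gamma (n : ℕ) : ℕ :=
  sInf {s | ∃ D : Finset (ZMod n), D.card = s ∧ ∀ x : ZMod n, x ∈ D ∨ ∃ d ∈ D, IsUnit (x - d)}

/-- Total domination number of the unitary Cayley graph of `ZMod n`. -/
noncomputable def gammaT (n : ℕ) : ℕ :=
  sInf {s | ∃ D : Finset (ZMod n), D.card = s ∧ ∀ x : ZMod n, ∃ d ∈ D, IsUnit (x - d)}

/-- Jacobsthal's function: least positive `m` such that every block of `m` consecutive integers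
contains an integer coprime to `n`. -/
noncomputable def jac (n : ℕ) : ℕ :=
  sInf {m | 0 < m ∧ ∀ a : ℤ, ∃ i : ℕ, i < m ∧ IsCoprime (a + i) (n : ℤ)}

lemma cnt (s k : ℕ) : ((Ico s (s + 30 * k)).filter (Nat.Coprime 30)).card = 8 * k := by
  induction k with
  | zero => simp
  | succ k ih =>
    have h1 : Ico s (s + 30 * (k + 1)) = Ico s (s + 30 * k) ∪ Ico (s + 30 * k) (s + 30 * k + 30) := by
      rw [Ico_union_Ico_eq_Ico (by omega) (by omega)]; congr 1
    rw [h1, filter_union, card_union_of_disjoint, ih, Nat.filter_coprime_Ico_eq_totient]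
    · have : Nat.totient 30 = 8 := by decide
      omega
    · exact disjoint_filter_filter (Ico_disjoint_Ico_consecutive _ _ _)

def D0 : Finset ℕ := {3, 4, 5, 7, 9, 11, 12, 13, 18, 19, 20, 22, 24, 26, 27, 28}

lemma D0a : ∀ y < 30, 4 ≤ (D0.filter fun d => Nat.Coprime 30 (y + d)).card := by decide +kernel

lemma D0b : D0.card = 16 ∧ ∀ d ∈ D0, d < 30 := by decide +kernel

theorem core : ∀ k : ℕ, ∃ n : ℕ, 1 < n ∧ k ≤ n.primeFactors.card ∧
    ∃ D : Finset (ZMod n), (∀ x : ZMod n, ∃ d ∈ D, IsUnit (x - d)) ∧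
      ∃ a : ℕ, ∀ t ≤ D.card, ¬ Nat.Coprime (a + t) n := by
  intro k
  classical
  set N := 60 + 30 * k with hN
  set F := N.factorial with hF
  have hFpos : 0 < F := Nat.factorial_pos N
  let U := (Ico 20 (37 + 30 * k)).filter (Nat.Coprime 30)
  have hU : U.card = 3 + 8 * k := by
    have h1 : Ico 20 (37 + 30 * k) = Ico 20 37 ∪ Ico 37 (37 + 30 * k) := by
      rw [Ico_union_Ico_eq_Ico (by omega) (by omega)]
    have h2 : ((Ico 20 37).filter (Nat.Coprime 30)).card = 3 := by decide +kernel
    simp only [U]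
    rw [h1, filter_union, card_union_of_disjoint, cnt, h2]
    exact disjoint_filter_filter (Ico_disjoint_Ico_consecutive _ _ _)
  let p : ℕ → ℕ := fun u => (1 + F * (F / u)).minFac
  have hp : ∀ u ∈ U, (p u).Prime ∧ N < p u ∧ p u ∣ F * F + u := by
    intro u hu
    have hu' := mem_Ico.mp (mem_filter.mp hu).1
    have hd : u ∣ F := Nat.dvd_factorial (by omega) (by omega)
    have hq : 0 < F / u := Nat.div_pos (Nat.le_of_dvd hFpos hd) (by omega)
    have hm := Nat.mul_pos hFpos hq
    have hpr : (p u).Prime := Nat.minFac_prime (by omega)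
    refine ⟨hpr, ?_, ?_⟩
    · by_contra hle
      have h1 : p u ∣ F := Nat.dvd_factorial hpr.pos (by omega)
      have h2 : p u ∣ 1 + F * (F / u) := Nat.minFac_dvd _
      have h3 : p u ∣ 1 := (Nat.dvd_add_left (h1.mul_right _)).mp h2
      exact hpr.one_lt.ne' (Nat.dvd_one.mp h3)
    · have h2 : p u ∣ 1 + F * (F / u) := Nat.minFac_dvd _
      have h3 : F * F + u = u * (1 + F * (F / u)) := by
        have := Nat.mul_div_cancel' hd
        calc F * F + u = F * (u * (F / u)) + u := by rw [this]
          _ = _ := by ring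
      rw [h3]; exact h2.mul_left _
  have close : ∀ q y u v : ℕ, N < q → u < N → v < N → q ∣ y + u → q ∣ y + v → u = v := by
    intro q y u v hq hu hv h1 h2
    have h3 := Nat.eq_zero_of_dvd_of_lt (Nat.dvd_sub h1 h2) (by omega)
    have h4 := Nat.eq_zero_of_dvd_of_lt (Nat.dvd_sub h2 h1) (by omega)
    omega
  have hUlt : ∀ u ∈ U, u < N := fun u hu => by
    have hu' := mem_Ico.mp (mem_filter.mp hu).1
    omega
  have hprod : 0 < ∏ u ∈ U, p u := prod_pos fun u hu => (hp u hu).1.pos
  refine ⟨30 * ∏ u ∈ U, p u, by omega, ?_, ?_⟩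
  · have : U.card ≤ (30 * ∏ u ∈ U, p u).primeFactors.card := by
      apply card_le_card_of_injOn p
      · intro u hu
        exact Nat.mem_primeFactors.mpr ⟨(hp u hu).1, (dvd_prod_of_mem p hu).mul_left _, by omega⟩
      · intro u hu v hv e
        exact close (p u) (F * F) u v (hp u hu).2.1 (hUlt u hu) (hUlt v hv) (hp u hu).2.2
          (e ▸ (hp v hv).2.2)
    omega
  have : NeZero (30 * ∏ u ∈ U, p u) := ⟨by omega⟩
  refine ⟨(D0 ∪ Ico 30 (30 + 30 * k)).image fun d : ℕ => -(d : ZMod _), ?_, F * F + 20, ?_⟩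
  · intro x
    by_contra hcon
    push Not at hcon
    let W := (D0 ∪ Ico 30 (30 + 30 * k)).filter fun d => Nat.Coprime 30 (x.val + d)
    have hW : 4 + 8 * k ≤ W.card := by
      simp only [W]
      rw [filter_union, card_union_of_disjoint]
      · have h1 := D0a (x.val % 30) (Nat.mod_lt _ (by norm_num))
        have h2 : (D0.filter fun d => Nat.Coprime 30 (x.val % 30 + d))
            = D0.filter fun d => Nat.Coprime 30 (x.val + d) := by
          apply filter_congr
          intro d _
          conv_rhs => rw [← Nat.mod_add_div x.val 30, Nat.add_right_comm]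
          rw [Nat.coprime_add_mul_left_right]
        have h3 : ((Ico (x.val + 30) (x.val + 30 + 30 * k)).filter (Nat.Coprime 30)).card ≤
            ((Ico 30 (30 + 30 * k)).filter fun d => Nat.Coprime 30 (x.val + d)).card := by
          apply card_le_card_of_injOn (fun v => v - x.val)
          · intro v hv
            simp only [coe_filter, mem_Ico, Set.mem_ofPred_eq] at hv ⊢
            refine ⟨by omega, ?_⟩
            rw [show x.val + (v - x.val) = v by omega]
            exact hv.2
          · intro v hv w hw e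
            simp only [coe_filter, mem_Ico, Set.mem_ofPred_eq] at hv hw e
            omega
        rw [cnt] at h3
        rw [h2] at h1
        omega
      · apply disjoint_filter_filter
        rw [disjoint_left]
        intro d hd hd'
        have := D0b.2 d hd
        have := mem_Ico.mp hd'
        omega
    have hex : ∀ d ∈ W, ∃ u ∈ U, p u ∣ x.val + d := by
      intro d hd
      obtain ⟨hd1, hd2⟩ := mem_filter.mp hd
      have h1 := hcon _ (mem_image_of_mem _ hd1)
      have h2 : x - -(d : ZMod _) = ((x.val + d : ℕ) : ZMod _) := by simp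
      rw [h2, ZMod.isUnit_iff_coprime, Nat.coprime_mul_iff_right, Nat.coprime_prod_right_iff] at h1
      by_contra hno
      push Not at hno
      exact h1 ⟨hd2.symm, fun u hu =>
        (((hp u hu).1.coprime_iff_not_dvd).mpr (hno u hu)).symm⟩
    choose! f hf using hex
    have hWlt : ∀ d ∈ W, d < N := by
      intro d hd
      rcases mem_union.mp (mem_filter.mp hd).1 with h | h
      · have := D0b.2 d h
        omega
      · have := mem_Ico.mp h
        omega
    have : W.card ≤ U.card := by
      apply card_le_card_of_injOn f (fun d hd => (hf d hd).1)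
      intro d hd e he h
      exact close (p (f d)) x.val d e (hp _ (hf d hd).1).2.1 (hWlt d hd) (hWlt e he) (hf d hd).2
        (h ▸ (hf e he).2)
    omega
  · intro t ht hco
    have h1 : t ≤ 16 + 30 * k := by
      have := (ht.trans card_image_le).trans (card_union_le _ _)
      rw [D0b.1, Nat.card_Ico] at this
      omega
    rw [Nat.coprime_mul_iff_right, Nat.coprime_prod_right_iff] at hco
    have h30 : 30 ∣ F := Nat.dvd_factorial (by norm_num) (by omega)
    obtain ⟨c, hc⟩ := h30.mul_right F
    have hu : 20 + t ∈ U := by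
      refine mem_filter.mpr ⟨mem_Ico.mpr (by omega), ?_⟩
      have := hco.1.symm
      rw [hc, show 30 * c + 20 + t = 20 + t + 30 * c by ring,
        Nat.coprime_add_mul_left_right] at this
      exact this
    have h2 := hco.2 _ hu
    rw [Nat.add_assoc] at h2
    exact ((hp _ hu).1.coprime_iff_not_dvd.mp h2.symm) (hp _ hu).2.2

theorem result : ∀ k : ℕ, ∃ n : ℕ, 1 < n ∧ k ≤ n.primeFactors.card ∧
    gamma n + 2 ≤ jac n ∧ gammaT n + 2 ≤ jac n := by
  intro k
  obtain ⟨n, hn, hk, D, hD, a, ha⟩ := core k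
  have h1 : gamma n ≤ D.card := Nat.sInf_le ⟨D, rfl, fun x => Or.inr (hD x)⟩
  have h2 : gammaT n ≤ D.card := Nat.sInf_le ⟨D, rfl, hD⟩
  have h3 : D.card + 2 ≤ jac n := by
    apply le_csInf
    · refine ⟨n, by omega, fun b => ⟨((1 - b) % n).toNat, ?_, 1, (1 - b) / n, ?_⟩⟩
      · have := Int.emod_lt_of_pos (1 - b) (show (0 : ℤ) < n by omega)
        omega
      · rw [Int.toNat_of_nonneg (Int.emod_nonneg _ (by omega)), Int.emod_def]
        ring
    · rintro m ⟨_, hm⟩
      obtain ⟨i, hi, hc⟩ := hm a
      by_contra hlt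
      apply ha i (by omega)
      rw [← Nat.isCoprime_iff_coprime]
      exact_mod_cast hc
  exact ⟨n, hn, hk, by omega, by omega⟩

end Pool.Agent.Results.MP_6d1f6b_co.Gap
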